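import Pool.Agent.Helper67_ACX.End
import Pool.Agent.AHH.Z

/-!
# The deterministic end for the concrete environment (row P2)
-/

set_option autoImplicit false

open scoped BigOperators NNReal Matrix

noncomputable section

namespace Pool.Agent.ACX.H67

open Pool.Agent.AND2B (Ev net)
open Pool.Agent.AHH (toE bud St)
open Pool.Agent.ANP (Cfg)
open Pool.Agent.LE.QD (rs)

/-- sites with `Im G_xx < cl c C` are bad -/
def cL (c C : ℝ) : ℝ := c / 8 / (2 * KH (c / 2) (2 * C))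

/-- the constant in front of the dead sites -/
def cU (c C : ℝ) : ℝ := 2 * KH (c / 2) (2 * C) / (c / 8)

theorem KH_pos {c C : ℝ} (hc : 0 < c) (hC : 1 ≤ C) : 0 < KH (c / 2) (2 * C) := by
  unfold KH
  positivity

theorem cL_pos {c C : ℝ} (hc : 0 < c) (hC : 1 ≤ C) : 0 < cL c C := by
  have := KH_pos hc hC
  unfold cL
  positivity

theorem cU_pos {c C : ℝ} (hc : 0 < c) (hC : 1 ≤ C) : 0 < cU c C := by
  have := KH_pos hc hC
  unfold cU
  positivity

/-- THE END: at the last clock `f = cl (kk (N + 1))`, if all sites are running or dead, the number of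
the sites with small `Im G_xx (T.V, E + i f)` is at most
`∑_(b dead) (1 + cU Im G_bb (T.V, E + i f))`. -/
theorem endZ (d : ℕ) (a es c C : ℝ) (hc : 0 < c) (hc1 : c ≤ 1 / 2) (hC : 1 ≤ C) :
    Ev d a es c C fun V => ∀ (n : ℕ) (T : Cfg V.X) (run : Finset V.X),
      St (toE V c C) (bud V) n (V.kk (V.N + 1)) T run →
      (∀ x ∈ run, T.s x = V.cl (V.kk (V.N + 1))) → (∀ x, x ∉ run → T.s x = 0) →
      (((Finset.univ.filter fun x => (rs T.V ⟨V.E, (V.cl (V.kk (V.N + 1)) : ℝ)⟩ x x).im <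
        cL c C).card : ℕ) : ℝ) ≤ ∑ b ∈ Finset.univ \ run,
          (1 + cU c C * (rs T.V ⟨V.E, (V.cl (V.kk (V.N + 1)) : ℝ)⟩ b b).im) := by
  refine AND2B.Ev.intro 1 1 one_pos one_pos ?_
  intro th c₁ C₁ α J _ _ _ _ _ _
  refine ⟨1, (c / 8) ^ (8 : ℝ), one_pos, by positivity, ?_⟩
  intro V hV hth _ _ _ _ _ hw
  have hclp : 0 < V.cl (V.kk (V.N + 1)) :=
    AHH.cl_pos V hV.w (lt_of_lt_of_le (by norm_num) hV.th.1) _
  have hclp' : (0 : ℝ) < V.cl (V.kk (V.N + 1)) := by exact_mod_cast hclp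
  refine ⟨c / 2 * V.cl (V.kk (V.N + 1)), by positivity, ?_⟩
  intro e₀ m ζ he he' _ n T run hSt hrun hdead
  have hclw : (V.cl (V.kk (V.N + 1)) : ℝ) ≤ V.w := by
    exact_mod_cast AHH.cl_le V hV.th.2.le (V.kk (V.N + 1))
  have hmis : ((V.cl (V.kk (V.N + 1)) : ℝ)) ^ (1 / 8 : ℝ) ≤ c / 8 := by
    have h1 : ((V.cl (V.kk (V.N + 1)) : ℝ)) ^ (1 / 8 : ℝ) ≤ ((c / 8) ^ (8 : ℝ)) ^ (1 / 8 : ℝ) :=
      Real.rpow_le_rpow hclp'.le (hclw.trans hw) (by norm_num)
    rw [← Real.rpow_mul (by positivity)] at h1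
    norm_num at h1
    exact h1
  have hal : ∀ x, x ∈ run → x ∈ AHH.Al T := fun x hx => hSt.alv hx
  refine endA (c₀ := c / 2) (C₀ := 2 * C) (c₁ := c / 8) (by positivity) (by linarith) (by linarith)
    hclp' he he' (by positivity) T run ?_ hdead ?_
  · intro x hx
    have h := hSt.gau x (hal x hx)
    exact ⟨by rw [hrun x hx], h.1, h.2.1⟩
  · intro x hx
    have h := hSt.gau x (hal x hx)
    have h1 : c / 2 ≤ (T.mb x).im := h.1
    have h2 : ‖net V.E e₀ T x x - T.mb x‖ ≤ (V.cl (V.kk (V.N + 1)) : ℝ) ^ (1 / 8 : ℝ) :=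
      hSt.mis x hx
    have h3 : |(net V.E e₀ T x x - T.mb x).im| ≤ ‖net V.E e₀ T x x - T.mb x‖ :=
      Complex.abs_im_le_norm _
    rw [Complex.sub_im] at h3
    have h4 := (abs_le.1 (h3.trans (h2.trans hmis))).1
    linarith

end Pool.Agent.ACX.H67
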