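import Pool.Agent.Helper67_ACX.Har
import Pool.Agent.Helper72_AHH.Chg

/-!
# The end of the flow: most sites are good for the true Green function

`T` the last configuration, all sites are running (clock `f`) or dead. The network is compared with
the true resolvent of the potential `T.V` at the spectral parameter `E + i f`.
-/

set_option autoImplicit false

open scoped BigOperators NNReal Matrix ComplexConjugate

noncomputable section

namespace Pool.Agent.ACX.H67

open Pool.Agent.ANR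
open Pool.Agent.BED (Tor)
open Pool.Agent.AND2B (net kap Vef Hr res)
open Pool.Agent.ANP (Cfg)
open Pool.Agent.LE.QD (rs hz)

variable {d M : ℕ} [NeZero M]

/-- the two resolvents -/
theorem res_rs (V : Tor d M → ℝ) (E η : ℝ) : res V E (fun _ => η) = rs V ⟨E, η⟩ := by
  unfold res rs Gr
  congr 1
  ext x y
  unfold Hr hz
  rw [Matrix.sub_apply, Matrix.map_apply, Matrix.add_apply, Matrix.add_apply, Matrix.map_apply]
  by_cases h : x = y
  · subst h
    rw [Matrix.diagonal_apply_eq, Matrix.diagonal_apply_eq, Matrix.diagonal_apply_eq,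
      Complex.mk_eq_add_mul_I]
    push_cast
    ring
  · rw [Matrix.diagonal_apply_ne _ h, Matrix.diagonal_apply_ne _ h,
      Matrix.diagonal_apply_ne _ h]
    push_cast
    ring

open AHH.H72 in
theorem hr_diff (V V' : Tor d M → ℝ) (E : ℝ) (x y : Tor d M) :
    Hr V' E x y = Hr V E x y + if x = y then V' x - V x else 0 := by
  unfold Hr
  rw [Matrix.add_apply, Matrix.add_apply]
  by_cases h : x = y
  · subst h
    rw [Matrix.diagonal_apply_eq, Matrix.diagonal_apply_eq, if_pos rfl]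
    ring
  · rw [Matrix.diagonal_apply_ne _ h, Matrix.diagonal_apply_ne _ h, if_neg h]
    ring

/-- the constant of the Harnack inequality -/
def KH (c₀ C₀ : ℝ) : ℝ := 10 * ((C₀ + 1) / c₀) ^ 3

/-- THE END -/
theorem endA {E e₀ f c₀ C₀ c₁ : ℝ} (hc₀ : 0 < c₀) (hc₀' : c₀ ≤ 1) (hC₀ : 1 ≤ C₀) (hf : 0 < f)
    (he : 0 < e₀) (hef : e₀ ≤ c₀ * f) (hc₁ : 0 < c₁) (T : Cfg (Tor d M)) (run : Finset (Tor d M))
    (hr : ∀ x ∈ run, (T.s x : ℝ) = f ∧ c₀ ≤ (T.mb x).im ∧ ‖T.mb x‖ ≤ C₀)
    (hd : ∀ x, x ∉ run → T.s x = 0) (hb : ∀ x ∈ run, 2 * c₁ ≤ (net E e₀ T x x).im) :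
    (((Finset.univ.filter fun x => (rs T.V ⟨E, f⟩ x x).im < c₁ / (2 * KH c₀ C₀)).card : ℕ) : ℝ) ≤
      ∑ b ∈ Finset.univ \ run, (1 + 2 * KH c₀ C₀ / c₁ * (rs T.V ⟨E, f⟩ b b).im) := by
  set C : ℝ := (C₀ + 1) / c₀ with hC
  set k : ℝ := c₀ * f with hk
  have hk0 : 0 < k := mul_pos hc₀ hf
  have hCk : C * k = (C₀ + 1) * f := by
    rw [hC, hk]
    field_simp
  have hC1 : 1 ≤ C := by
    rw [hC, le_div_iff₀ hc₀]
    linarith
  have hK : KH c₀ C₀ = 10 * C ^ 3 := rfl
  have hK0 : 0 < KH c₀ C₀ := by rw [hK]; positivity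
  -- the middle absorption
  set κ : Tor d M → ℝ := fun x => if x ∈ run then kap e₀ T x else k with hκ
  have hkap : ∀ x, x ∈ run → k ≤ kap e₀ T x ∧ kap e₀ T x ≤ C * k := by
    intro x hx
    obtain ⟨h1, h2, h3⟩ := hr x hx
    have h4 : (T.mb x).im ≤ C₀ := (le_abs_self _).trans ((Complex.abs_im_le_norm _).trans h3)
    have h5 : kap e₀ T x = e₀ + f * (T.mb x).im := by
      unfold kap
      rw [h1]
    rw [h5, hCk]
    constructor
    · rw [hk]
      nlinarith
    · nlinarith
  have hkd : ∀ x, x ∉ run → kap e₀ T x = e₀ := by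
    intro x hx
    unfold kap
    rw [hd x hx]
    simp
  have hκ1 : ∀ x, k ≤ κ x := by
    intro x
    rw [hκ]
    dsimp only
    split_ifs with h
    · exact (hkap x h).1
    · exact le_refl _
  have hκ2 : ∀ x, κ x ≤ C * k := by
    intro x
    rw [hκ]
    dsimp only
    split_ifs with h
    · exact (hkap x h).2
    · exact le_mul_of_one_le_left hk0.le hC1
  have hκ3 : ∀ x, kap e₀ T x ≤ κ x := by
    intro x
    rw [hκ]
    dsimp only
    split_ifs with h
    · exact le_refl _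
    · rw [hkd x h]
      exact hef
  have hpos : ∀ x, 0 < kap e₀ T x := by
    intro x
    by_cases h : x ∈ run
    · exact hk0.trans_le (hkap x h).1
    · rw [hkd x h]
      exact he
  have hN' : Net (Hr (Vef T) E) (kap e₀ T) := ⟨AHH.H72.hr_sym _ _, hpos⟩
  have hN : Net (Hr (Vef T) E) κ := ⟨AHH.H72.hr_sym _ _, fun x => hk0.trans_le (hκ1 x)⟩
  have hNt : Net (Hr T.V E) (fun _ : Tor d M => f) := ⟨AHH.H72.hr_sym _ _, fun _ => hf⟩
  have hfk : k ≤ f ∧ f ≤ C * k := by
    rw [hCk, hk]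
    constructor
    · nlinarith
    · nlinarith
  have hvb : ∀ x, |Vef T x - T.V x| ≤ C * k := by
    intro x
    have h1 : Vef T x - T.V x = -((T.s x : ℝ) * (T.mb x).re) := by
      unfold Vef
      ring
    rw [h1, abs_neg, abs_mul, hCk]
    by_cases h : x ∈ run
    · obtain ⟨h2, -, h3⟩ := hr x h
      rw [h2, abs_of_pos hf]
      have h4 : |(T.mb x).re| ≤ C₀ := (Complex.abs_re_le_norm _).trans h3
      nlinarith
    · rw [hd x h]
      simp only [NNReal.coe_zero, abs_zero, zero_mul]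
      nlinarith
  -- Harnack, both directions
  have har1 : ∀ b, (Gr (Hr (Vef T) E) κ b b).im ≤ 10 * C ^ 3 * (rs T.V ⟨E, f⟩ b b).im := by
    intro b
    have h := har hNt hN (fun x => Vef T x - T.V x) (fun x y => hr_diff T.V (Vef T) E x y) hk0 hC1
      (fun _ => hfk.1) (fun _ => hfk.2) hκ1 hκ2 hvb b
    rw [← res_rs]
    exact h
  -- the counting bound
  set B : Finset (Tor d M) := Finset.univ.filter fun x =>
    x ∈ run ∧ (rs T.V ⟨E, f⟩ x x).im < c₁ / (2 * KH c₀ C₀) with hB
  have hcount : (B.card : ℝ) ≤ ∑ b ∈ Finset.univ \ run, 2 * KH c₀ C₀ / c₁ *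
      (rs T.V ⟨E, f⟩ b b).im := by
    have h1 := HSL14.hsc_net hN' hκ3 hc₁ B (by
      intro x hx
      rw [hB, Finset.mem_filter] at hx
      refine ⟨hb x hx.2.1, ?_⟩
      refine (har1 x).trans_lt ?_
      have h2 := hx.2.2
      rw [← hK]
      calc KH c₀ C₀ * (rs T.V ⟨E, f⟩ x x).im < KH c₀ C₀ * (c₁ / (2 * KH c₀ C₀)) :=
            mul_lt_mul_of_pos_left h2 hK0
        _ = c₁ / 2 := by field_simp)
    have h2 : (B.card : ℝ) * k ≤ ∑ x ∈ B, kap e₀ T x := by
      rw [← nsmul_eq_mul, ← Finset.sum_const]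
      refine Finset.sum_le_sum fun x hx => ?_
      rw [hB, Finset.mem_filter] at hx
      exact (hkap x hx.2.1).1
    have h3 : ∑ b, (κ b - kap e₀ T b) * (Gr (Hr (Vef T) E) κ b b).im ≤
        ∑ b ∈ Finset.univ \ run, k * (10 * C ^ 3 * (rs T.V ⟨E, f⟩ b b).im) := by
      rw [← Finset.sum_subset (Finset.sdiff_subset (s := Finset.univ) (t := run))]
      · refine Finset.sum_le_sum fun b hbm => ?_
        have hb' : b ∉ run := (Finset.mem_sdiff.1 hbm).2
        have h4 : κ b - kap e₀ T b ≤ k := by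
          rw [hκ]
          dsimp only
          rw [if_neg hb', hkd b hb']
          linarith
        have h5 : 0 ≤ κ b - kap e₀ T b := by linarith [hκ3 b]
        have h6 : 0 ≤ (Gr (Hr (Vef T) E) κ b b).im := by
          rw [← HSL14.ward_diag hN.sym (HSL14.mat_unit hN) b]
          exact Finset.sum_nonneg fun y _ => mul_nonneg (hN.pos y).le (sq_nonneg _)
        calc (κ b - kap e₀ T b) * (Gr (Hr (Vef T) E) κ b b).im
            ≤ k * (Gr (Hr (Vef T) E) κ b b).im := mul_le_mul_of_nonneg_right h4 h6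
          _ ≤ k * (10 * C ^ 3 * (rs T.V ⟨E, f⟩ b b).im) :=
              mul_le_mul_of_nonneg_left (har1 b) hk0.le
      · intro b _ hbm
        have hb' : b ∈ run := by
          by_contra h
          exact hbm (Finset.mem_sdiff.2 ⟨Finset.mem_univ _, h⟩)
        rw [hκ]
        dsimp only
        rw [if_pos hb', sub_self, zero_mul]
    have h7 : (B.card : ℝ) * k ≤ (∑ b ∈ Finset.univ \ run, 2 * KH c₀ C₀ / c₁ *
        (rs T.V ⟨E, f⟩ b b).im) * k := by
      refine h2.trans (h1.trans ((mul_le_mul_of_nonneg_left h3 (by positivity)).trans (le_of_eq ?_)))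
      rw [Finset.mul_sum, Finset.sum_mul]
      refine Finset.sum_congr rfl fun b _ => ?_
      rw [hK]
      ring
    exact le_of_mul_le_mul_right h7 hk0
  have hsub : (Finset.univ.filter fun x => (rs T.V ⟨E, f⟩ x x).im < c₁ / (2 * KH c₀ C₀)) ⊆
      B ∪ (Finset.univ \ run) := by
    intro x hx
    rw [Finset.mem_filter] at hx
    rw [Finset.mem_union, hB, Finset.mem_filter, Finset.mem_sdiff]
    by_cases h : x ∈ run
    · exact Or.inl ⟨Finset.mem_univ _, h, hx.2⟩
    · exact Or.inr ⟨Finset.mem_univ _, h⟩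
  have hcard := (Finset.card_le_card hsub).trans (Finset.card_union_le _ _)
  have hcard' : (((Finset.univ.filter fun x =>
      (rs T.V ⟨E, f⟩ x x).im < c₁ / (2 * KH c₀ C₀)).card : ℕ) : ℝ) ≤
      (B.card : ℝ) + ((Finset.univ \ run).card : ℝ) := by exact_mod_cast hcard
  rw [Finset.sum_add_distrib, Finset.sum_const, nsmul_eq_mul, mul_one]
  linarith

end Pool.Agent.ACX.H67
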