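import Pool.Agent.Helper63_ANR.GRN
import Pool.Agent.Helper77_ANR.DIR
import Pool.Agent.Helper72_ANR.GEQ
import Pool.Agent.Helper14_HSL.HSC

/-!
# The Harnack inequality for Green functions, and the counting bound

`k` the smallest absorption. If real potentials and absorptions are changed by at most `C k` the
imaginary part of `G_bb` changes by at most a constant factor. Together with the counting bound of
`Helper14_HSL`: the sites where the network is good and the true Green function is bad are few.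
-/

set_option autoImplicit false

open scoped BigOperators ComplexConjugate

noncomputable section

namespace Pool.Agent.ACX.H67

open Pool.Agent.ANR

variable {X : Type} [Fintype X] [DecidableEq X]

theorem grn_ : GrnStmt := ANR.H63.grn
theorem geq_ : GeqStmt := ANR.H72.geq (ANR.H77.dir grn_) grn_

/-- HARNACK -/
theorem har {H H' : Matrix X X ℝ} {κ κ' : X → ℝ} (hN : Net H κ) (hN' : Net H' κ') (v : X → ℝ)
    (hv : ∀ x y, H' x y = H x y + if x = y then v x else 0) {k C : ℝ} (hk : 0 < k) (hC : 1 ≤ C)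
    (h1 : ∀ x, k ≤ κ x) (h2 : ∀ x, κ x ≤ C * k) (h1' : ∀ x, k ≤ κ' x) (h2' : ∀ x, κ' x ≤ C * k)
    (hvC : ∀ x, |v x| ≤ C * k) (b : X) :
    (Gr H' κ' b b).im ≤ 10 * C ^ 3 * (Gr H κ b b).im := by
  have hC0 : 0 < C := by linarith
  obtain ⟨e1, -, e2, -, -⟩ := geq_ X H κ hN
  obtain ⟨e1', -, e2', -, -⟩ := geq_ X H' κ' hN'
  set ψ : X → ℂ := fun z => Gr H κ z b with hψ
  set ψ' : X → ℂ := fun z => Gr H' κ' z b with hψ'
  set χ : X → ℂ := fun z => ψ' z - ψ z with hχ
  set W : X → ℂ := fun x => (v x : ℂ) - Complex.I * ((κ' x : ℂ) - (κ x : ℂ)) with hW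
  -- the equation of the difference
  have hop : ∀ x, opv H' κ' χ x = - (W x * ψ x) := by
    intro x
    have a1 : opv H κ ψ x = if x = b then 1 else 0 := e1 x b
    have a2 : opv H' κ' ψ' x = if x = b then 1 else 0 := e1' x b
    have a3 : opv H' κ' ψ x = opv H κ ψ x + W x * ψ x := by
      unfold opv
      have : ∑ y, (H' x y : ℂ) * ψ y = ∑ y, (H x y : ℂ) * ψ y + (v x : ℂ) * ψ x := by
        have hh : ∀ y, (H' x y : ℂ) * ψ y =
            (H x y : ℂ) * ψ y + if x = y then (v x : ℂ) * ψ y else 0 := by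
          intro y
          rw [hv x y]
          by_cases hxy : x = y
          · rw [if_pos hxy, if_pos hxy]
            push_cast
            ring
          · rw [if_neg hxy, if_neg hxy]
            push_cast
            ring
        rw [Finset.sum_congr rfl fun y _ => hh y, Finset.sum_add_distrib, Finset.sum_ite_eq,
          if_pos (Finset.mem_univ x)]
      rw [this, hW]
      ring
    have a4 : opv H' κ' χ x = opv H' κ' ψ' x - opv H' κ' ψ x := by
      unfold opv
      have : ∑ y, (H' x y : ℂ) * χ y = ∑ y, (H' x y : ℂ) * ψ' y - ∑ y, (H' x y : ℂ) * ψ y := by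
        rw [← Finset.sum_sub_distrib]
        exact Finset.sum_congr rfl fun y _ => by rw [hχ]; ring
      rw [this, hχ]
      ring
    rw [a4, a2, a3, a1]
    ring
  have hWn : ∀ x, ‖W x‖ ≤ 2 * C * k := by
    intro x
    have a1 : ‖W x‖ ≤ ‖(v x : ℂ)‖ + ‖Complex.I * ((κ' x : ℂ) - (κ x : ℂ))‖ := norm_sub_le _ _
    have a2 : ‖(v x : ℂ)‖ = |v x| := by rw [Complex.norm_real, Real.norm_eq_abs]
    have a3 : ‖Complex.I * ((κ' x : ℂ) - (κ x : ℂ))‖ = |κ' x - κ x| := by
      rw [norm_mul, Complex.norm_I, one_mul, ← Complex.ofReal_sub, Complex.norm_real,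
        Real.norm_eq_abs]
    have a4 : |κ' x - κ x| ≤ C * k := by
      rw [abs_le]
      have := h1 x
      have := h2 x
      have := h1' x
      have := h2' x
      constructor <;> nlinarith
    rw [a2, a3] at a1
    linarith [hvC x]
  set A := ∑ x, ‖χ x‖ ^ 2 with hA
  set B := ∑ x, ‖ψ x‖ ^ 2 with hB
  have hAB : A ≤ 4 * C ^ 2 * B := by
    have a1 := (grn_ X H' κ' hN').2 χ
    have a2 : ∑ x, κ' x * ‖χ x‖ ^ 2 ≤ ∑ x, ‖χ x‖ * (2 * C * k * ‖ψ x‖) := by
      have a3 : ∑ x, κ' x * ‖χ x‖ ^ 2 = -(∑ x, conj (χ x) * opv H' κ' χ x).im := by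
        rw [a1, neg_neg]
      rw [a3]
      have a4 : -(∑ x, conj (χ x) * opv H' κ' χ x).im ≤ ‖∑ x, conj (χ x) * opv H' κ' χ x‖ :=
        (neg_le_abs _).trans (Complex.abs_im_le_norm _)
      refine a4.trans ((norm_sum_le _ _).trans (Finset.sum_le_sum fun x _ => ?_))
      rw [hop x, norm_mul, norm_neg, norm_mul, Complex.norm_conj]
      exact mul_le_mul_of_nonneg_left (mul_le_mul_of_nonneg_right (hWn x) (norm_nonneg _))
        (norm_nonneg _)
    have a5 : k * A ≤ ∑ x, κ' x * ‖χ x‖ ^ 2 := by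
      rw [hA, Finset.mul_sum]
      exact Finset.sum_le_sum fun x _ => mul_le_mul_of_nonneg_right (h1' x) (sq_nonneg _)
    have a6 : ∑ x, ‖χ x‖ * (2 * C * k * ‖ψ x‖) ≤ k / 2 * A + 2 * C ^ 2 * k * B := by
      rw [hA, hB, Finset.mul_sum, Finset.mul_sum, ← Finset.sum_add_distrib]
      refine Finset.sum_le_sum fun x _ => ?_
      have := mul_nonneg (mul_nonneg (by norm_num : (0 : ℝ) ≤ 1 / 2) hk.le)
        (sq_nonneg (‖χ x‖ - 2 * C * ‖ψ x‖))
      nlinarith
    have a7 : k * A ≤ k / 2 * A + 2 * C ^ 2 * k * B := a5.trans (a2.trans a6)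
    have a8 : k * A ≤ k * (4 * C ^ 2 * B) := by nlinarith
    exact le_of_mul_le_mul_left a8 hk
  have hB' : ∑ x, ‖ψ' x‖ ^ 2 ≤ 2 * A + 2 * B := by
    rw [hA, hB, Finset.mul_sum, Finset.mul_sum, ← Finset.sum_add_distrib]
    refine Finset.sum_le_sum fun x _ => ?_
    have a1 : ψ' x = χ x + ψ x := by rw [hχ]; ring
    have a2 : ‖ψ' x‖ ≤ ‖χ x‖ + ‖ψ x‖ := by
      rw [a1]
      exact norm_add_le _ _
    have a3 := norm_nonneg (ψ' x)
    nlinarith [sq_nonneg (‖χ x‖ - ‖ψ x‖)]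
  have hB0 : 0 ≤ B := Finset.sum_nonneg fun x _ => sq_nonneg _
  have a9 : (Gr H' κ' b b).im ≤ C * k * ∑ x, ‖ψ' x‖ ^ 2 := by
    rw [← e2' b, Finset.mul_sum]
    exact Finset.sum_le_sum fun x _ => mul_le_mul_of_nonneg_right (h2' x) (sq_nonneg _)
  have a10 : k * B ≤ (Gr H κ b b).im := by
    rw [← e2 b, hB, Finset.mul_sum]
    exact Finset.sum_le_sum fun x _ => mul_le_mul_of_nonneg_right (h1 x) (sq_nonneg _)
  have a11 : ∑ x, ‖ψ' x‖ ^ 2 ≤ 10 * C ^ 2 * B := by
    have : B ≤ C ^ 2 * B := le_mul_of_one_le_left hB0 (one_le_pow₀ hC)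
    nlinarith
  calc (Gr H' κ' b b).im ≤ C * k * ∑ x, ‖ψ' x‖ ^ 2 := a9
    _ ≤ C * k * (10 * C ^ 2 * B) := mul_le_mul_of_nonneg_left a11 (by positivity)
    _ = 10 * C ^ 3 * (k * B) := by ring
    _ ≤ 10 * C ^ 3 * (Gr H κ b b).im := mul_le_mul_of_nonneg_left a10 (by positivity)

end Pool.Agent.ACX.H67
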